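import Pool.Agent.W558.S.Stms
import Pool.Agent.W558.Stage

set_option autoImplicit false
set_option linter.unusedVariables false

universe u

open Polynomial AlgebraicGeometry CategoryTheory Pool.Agent.H920R2

namespace Pool.Agent.W558

/-- Models over `Spec R` with fraction field `K` give resolutions. -/
theorem hasResolution_of_LM {k A K : Type u} [Field k] [CommRing A] [IsDomain A] [Algebra k A]
    [Field K] [Algebra k K] (g : A →ₐ[k] K) (hg : Function.Injective g) {T I : Type} [Finite T]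
    (M : LM g.range g.range T I) :
    HasResolution (X := Spec (CommRingCat.of A))
      (Spec.map (CommRingCat.ofHom (algebraMap k A))) := by
  refine hasResolution_of_atl g hg (C := M.A) (H := M.H)
    { sm := M.sm
      aa := fun t a => M.base t ⟨a, rfl⟩
      H0 := M.H0
      hA := fun t => ?_
      rt := M.rt
      gl := M.gl
      dn := fun t x hx => ?_
      cv := fun V hV => M.cv V ?_ }
  · obtain ⟨b, hb⟩ := M.HR t
    exact ⟨b, hb.symm⟩
  · obtain ⟨n, b, hb⟩ := M.dn t x hx
    exact ⟨n, b, hb.symm⟩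
  · rintro _ ⟨b, rfl⟩
    exact hV b

theorem final_main (hlog : S_log.{u}) (hinit : S_init.{u}) (htor : S_tor.{u})
    (hrestr : S_restr.{u}) (hgr : S_gr.{u}) (k A : Type u) [Field k] [PerfectField k] [CommRing A]
    [IsDomain A] [Algebra k A] [Algebra.FiniteType k A] (r : ℕ)
    (𝒜 : (Fin r → ℤ) → Submodule k A) [GradedAlgebra 𝒜]
    (h2 : Algebra.trdeg k (homFrac 𝒜) = 2) (hM : HasModel k (homFrac 𝒜)) :
    HasResolution (X := Spec (CommRingCat.of A))
      (Spec.map (CommRingCat.ofHom (algebraMap k A))) := by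
  obtain ⟨n, z, m, h, a, hz, hh, hA⟩ := hgr k A r 𝒜
  obtain ⟨s⟩ := hinit k (homFrac 𝒜) hM
  obtain ⟨s', Γ, hΓ⟩ := hlog k (homFrac 𝒜) h2 s (Fin m) h hh
  obtain ⟨T1, I1, i1, i2, M1, Γ1, hΓ1⟩ :=
    htor k (homFrac 𝒜) (FractionRing A) s'.T s'.I (Fin m) s'.M h Γ hΓ n z hz
  have hmono := fn_mono hΓ1 (ι := Fin m)
    (fun b => Sum.elim (fun b' => if b' = b then (1 : ℤ) else 0) (a b))
  have e1 : (fun i => ∏ b : Fin m ⊕ Fin n, (Sum.elim (fun b => algebraMap (homFrac 𝒜)
      (FractionRing A) (h b)) z) b ^ (Sum.elim (fun b' => if b' = i then (1 : ℤ) else 0) (a i)) b)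
      = fun b => (h b : FractionRing A) * ∏ j, z j ^ a b j := by
    funext b
    rw [Fintype.prod_sum_type]
    congr 1
    rw [Finset.prod_eq_single b]
    · simp
    · intro b' _ hb'
      simp [hb']
    · simp
  rw [e1] at hmono
  let g : A →ₐ[k] FractionRing A := IsScalarTower.toAlgHom k A (FractionRing A)
  have hfr : ∀ x : FractionRing A, ∃ a ∈ g.range, ∃ b ∈ g.range, b ≠ 0 ∧ x = a * b⁻¹ := by
    intro x
    obtain ⟨a, b, hb, rfl⟩ := IsFractionRing.div_surjective (A := A) x
    refine ⟨_, ⟨a, rfl⟩, _, ⟨b, rfl⟩, ?_, ?_⟩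
    · exact (FaithfulSMul.algebraMap_eq_zero_iff A (FractionRing A)).not.2
        (nonZeroDivisors.ne_zero hb)
    · rw [div_eq_mul_inv]
      rfl
  obtain ⟨T2, I2, j1, j2, M2, Γ2, -, -⟩ := hrestr k (FractionRing A) T1 I1 (Fin m) M1 _ _ hmono
    Set.univ g.range (by rw [Set.image_univ]; exact hA) hfr
  exact hasResolution_of_LM g (IsFractionRing.injective A (FractionRing A)) M2

end Pool.Agent.W558
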