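import Pool.Agent.W558.S.Base1

set_option autoImplicit false
set_option linter.unusedVariables false

universe u

open Polynomial

namespace Pool.Agent.W558

theorem ph1_main (hpar : S_par.{u}) (hblow : S_blow.{u}) (hfin : S_fin.{u}) (hwf : S_wf.{u})
    (hterm : S_term.{max 1 u, u, u}) : S_ph1.{u} := by
  intro k E _ _ _ _ h2 s W hWd hx
  let P : SM k E → Prop := fun s => s.Wd W ∧ ∀ t i, s.M.A t ≤ W → ¬ NU W (s.M.x t i)
  let Bad : SM k E → Set (Subalgebra k E) := fun s => {O | (∃ t, IsPt (s.M.A t) O) ∧ O ≤ W ∧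
    ¬ Good1 O W}
  let r : Subalgebra k E → Subalgebra k E → Prop := fun O' O => r1 W O' O ∧ Acc (r1 W) O
  have hr : WellFounded r := by
    refine ⟨fun O => ?_⟩
    by_cases hO : Acc (r1 W) O
    · induction hO with
      | intro O h ih =>
        refine ⟨O, fun O' h' => ih O' h'.1⟩
    · exact ⟨O, fun O' h' => absurd h'.2 hO⟩
  have hF : ∀ s, P s → (Bad s).Finite := by
    rintro s ⟨hs1, hs2⟩
    have key : ∀ t, s.M.A t ≤ W → ∃ f ∈ s.M.A t, ¬ NU W f ∧ ∀ O, IsPt (s.M.A t) O → O ≤ W →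
        ¬ Good1 O W → NU O f := by
      intro t ht
      obtain ⟨D, y, hy, hD, hyW, hDy⟩ := exists_base (s.sf t) (hs1 t ht)
      refine ⟨D y, hD y hy, hDy, ?_⟩
      intro O hO hle hg
      obtain ⟨u, v, g, hu, hv, hgA, hg0, hgi, hpar', -, -⟩ := hpar k E h2 _ O (s.sf t) hO
      obtain ⟨α, hα, β, hβ, γ, hγ, h3⟩ := sq_of_not_good hpar' hO.loc (hs1 t ht).loc hle
        (exists_NU_not_NU hO.le hO.alg (hs1 t ht)) hg (hO.le hy) hyW
      -- the derivation preserves `O`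
      have hDO : ∀ x ∈ O, D x ∈ O := by
        intro x hx
        obtain ⟨a, ha, b, hb, hb0, hbi, rfl⟩ := hO.frac x hx
        rw [Derivation.leibniz, Derivation.leibniz_inv]
        simp only [smul_eq_mul]
        refine O.add_mem (O.mul_mem (hO.le ha) ?_) (O.mul_mem hbi (hO.le (hD a ha)))
        exact O.mul_mem (O.neg_mem (O.pow_mem hbi 2)) (hO.le (hD b hb))
      rw [h3]
      simp only [map_add, Derivation.leibniz, smul_eq_mul]
      have hu' := hpar'.pu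
      have hv' := hpar'.pv
      have e : α * (u * D u + u * D u) + u * u * D α + (β * (u * D v + v * D u) + u * v * D β) +
          (γ * (v * D v + v * D v) + v * v * D γ) =
          u * (α * D u + α * D u + u * D α + β * D v + v * D β) +
          v * (β * D u + γ * D v + γ * D v + v * D γ) := by ring
      rw [e]
      refine hO.loc _ _ (hu'.mul_right ?_) (hv'.mul_right ?_)
      · exact O.add_mem (O.add_mem (O.add_mem (O.add_mem (O.mul_mem hα (hDO _ hu'.mem))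
          (O.mul_mem hα (hDO _ hu'.mem))) (O.mul_mem hu'.mem (hDO _ hα)))
          (O.mul_mem hβ (hDO _ hv'.mem))) (O.mul_mem hv'.mem (hDO _ hβ))
      · exact O.add_mem (O.add_mem (O.add_mem (O.mul_mem hβ (hDO _ hu'.mem))
          (O.mul_mem hγ (hDO _ hv'.mem))) (O.mul_mem hγ (hDO _ hv'.mem)))
          (O.mul_mem hv'.mem (hDO _ hγ))
    have h3 : Bad s ⊆ ⋃ t : s.T, {O | IsPt (s.M.A t) O ∧ O ≤ W ∧ ¬ Good1 O W} := by
      rintro O ⟨⟨t, ht⟩, h4, h5⟩
      exact Set.mem_iUnion.2 ⟨t, ht, h4, h5⟩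
    refine Set.Finite.subset (Set.finite_iUnion fun t => ?_) h3
    by_cases ht : s.M.A t ≤ W
    · obtain ⟨f, hf, hfW, h4⟩ := key t ht
      refine Set.Finite.subset ((hfin k E h2 _ (s.sf t)).1 W (hs1 t ht) f hf hfW) ?_
      rintro O ⟨h5, h6, h7⟩
      exact ⟨h5, h6, h4 O h5 h6 h7⟩
    · convert Set.finite_empty
      ext O
      simp only [Set.mem_ofPred_eq, Set.mem_empty_iff_false, iff_false, not_and]
      intro h5 h6
      exact absurd (h5.le.trans h6) ht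
  have hS : ∀ s, P s → ∀ a ∈ Bad s, ∃ s', SM.Le s s' ∧ P s' ∧ ∀ a' ∈ Bad s',
      (a' ∈ Bad s ∧ a' ≠ a ∧ a' = a') ∨ r a' a := by
    rintro s ⟨hs1, hs2⟩ O ⟨hO, hle, hg⟩
    obtain ⟨T', hT', M', π, W', hsf, hirr, hB, hLe⟩ := exists_step hblow h2 s hO
    refine ⟨_, hLe, ⟨SM.Wd.mono hLe hs1, fun t i => hB.not_NU hO hs1 hs2 t i⟩, ?_⟩
    rintro O' ⟨⟨t', hO'⟩, hle', hg'⟩
    rcases hB.pt t' O' hO' with ⟨h3, h4, h5⟩ | ⟨h3, h4⟩
    · exact Or.inl ⟨⟨⟨_, h4⟩, hle', hg'⟩, h5, rfl⟩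
    · right
      have hAW : s.M.A (π t') ≤ W := h3.le.trans hle
      have hdv := hs1 _ hAW
      refine ⟨⟨M'.x t' none, h4, hle', hB.ex t' W hdv (hO'.le.trans hle'), ?_⟩,
        hwf k E h2 _ O W (s.sf _) h3 hdv hle⟩
      intro z hz hzW
      obtain ⟨u, v, g, hu, hv, hgA, hg0, hgi, hpar', -, -⟩ := hpar k E h2 _ O (s.sf _) h3
      obtain ⟨α, hα, β, hβ, γ, hγ, h5⟩ := sq_of_not_good hpar' h3.loc hdv.loc hle
        (exists_NU_not_NU h3.le h3.alg hdv) hg hz hzW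
      have e0 := h4.e0
      have hu' := h4.div u hpar'.pu
      have hv' := h4.div v hpar'.pv
      have e : z * (M'.x t' none ^ 2)⁻¹ =
          α * ((u * (M'.x t' none)⁻¹) * (u * (M'.x t' none)⁻¹)) +
          β * ((u * (M'.x t' none)⁻¹) * (v * (M'.x t' none)⁻¹)) +
          γ * ((v * (M'.x t' none)⁻¹) * (v * (M'.x t' none)⁻¹)) := by
        rw [h5]
        field_simp
      rw [e]
      exact O'.add_mem (O'.add_mem (O'.mul_mem (h4.le hα) (O'.mul_mem hu' hu'))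
        (O'.mul_mem (h4.le hβ) (O'.mul_mem hu' hv'))) (O'.mul_mem (h4.le hγ) (O'.mul_mem hv' hv'))
  obtain ⟨s', h3, h4, h5⟩ := hterm (SM k E) (Subalgebra k E) (Subalgebra k E) SM.Le Bad
    (fun _ O => O) r P SM.Le.refl (fun s s' s'' h h' => h.trans h') hr hF hS s ⟨hWd, hx⟩
  refine ⟨s', h3, h4.2, ?_⟩
  intro t O hO hle
  by_contra hg
  have : O ∈ Bad s' := ⟨⟨t, hO⟩, hle, hg⟩
  rw [h5] at this
  exact this

end Pool.Agent.W558
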