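import Pool.Agent.W558.S.Bl
import Pool.Agent.W558.S.BlowP
import Pool.Agent.W558.S.Ph1
import Pool.Agent.W558.S.Log
import Pool.Agent.W558.S.FinalP
import Pool.Agent.W418.S.Rank
import Pool.Agent.W418.S.Par
import Pool.Agent.W973.CHAIN
import Pool.Agent.W973.FIN
import Pool.Agent.W973.TERM
import Pool.Agent.W466.RS.Iso
import Pool.Agent.W544.Surf.Add
import Pool.Agent.W440.RS.Fn
import Pool.Agent.W22.W558Init
import Pool.Agent.W498.Tor.Tor
import Pool.Agent.W22.W558Restr
import Pool.Agent.W466.RS.Gr
import Pool.Agent.W285.WF.Main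
import Pool.Agent.W363.RS.PH2

set_option autoImplicit false

universe u

open AlgebraicGeometry CategoryTheory Pool.Agent.H920R2

namespace Pool.Agent.W558

theorem all_par : S_par.{u} := Pool.Agent.W418.SP.main Pool.Agent.W418.SR.main
theorem all_wf : S_wf.{u} := Pool.Agent.W285.WF.main
theorem all_chain : S_chain.{u} := Pool.Agent.W973.CHAIN.main
theorem all_fin : S_fin.{u} := Pool.Agent.W973.FIN.main all_chain
theorem all_iso : S_iso.{u} := Pool.Agent.W466.RS.Iso.main all_par
theorem all_blow : S_blow.{u} := blow_main all_iso bl_main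
theorem all_ph1 : S_ph1.{u} := ph1_main all_par all_blow all_fin all_wf Pool.Agent.W973.TERM.main
theorem all_ph2 : S_ph2.{u} :=
  Pool.Agent.W363.RS.main all_par all_blow all_fin Pool.Agent.W973.TERM.main
theorem all_add : S_add.{u} := Pool.Agent.W544.SAdd.main all_par all_fin all_chain
theorem all_fn : S_fn.{u} := Pool.Agent.W440.RS.main all_par all_fin all_chain
/-- Log resolution on smooth projective surfaces over perfect fields. -/
theorem all_log : S_log.{u} := log_main all_fin all_ph1 all_ph2 all_add all_fn
theorem all_init : S_init.{u} := Pool.Agent.W22.W558Init.main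
theorem all_tor : S_tor.{u} := Pool.Agent.W498.Tor.main
theorem all_restr : S_restr.{u} := Pool.Agent.W22.W558Restr.main
theorem all_gr : S_gr.{u} := Pool.Agent.W466.RS.Gr.main

/-- Resolution of affine varieties with torus action of complexity two. -/
theorem hasResolution_graded (k A : Type u) [Field k] [PerfectField k] [CommRing A]
    [IsDomain A] [Algebra k A] [Algebra.FiniteType k A] (r : ℕ)
    (𝒜 : (Fin r → ℤ) → Submodule k A) [GradedAlgebra 𝒜]
    (h2 : Algebra.trdeg k (homFrac 𝒜) = 2) (hM : HasModel k (homFrac 𝒜)) :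
    HasResolution (X := Spec (CommRingCat.of A))
      (Spec.map (CommRingCat.ofHom (algebraMap k A))) :=
  final_main all_log all_init all_tor all_restr all_gr k A r 𝒜 h2 hM

end Pool.Agent.W558
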