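import Pool.Agent.W558.U2
import Pool.Agent.W558.Fin1

set_option autoImplicit false
set_option linter.unusedVariables false
set_option linter.unusedSectionVars false

universe u

open Polynomial

namespace Pool.Agent.W558

section alg

variable {k E : Type u} [Field k] [Field E] [Algebra k E]

/-- `W` is the local ring of a curve (prime divisor) on the affine surface chart `Spec A`. -/
structure IsDv (A W : Subalgebra k E) : Prop where
  le : A ≤ W
  frac : ∀ x ∈ W, ∃ a ∈ A, ∃ b ∈ A, b ≠ 0 ∧ b⁻¹ ∈ W ∧ x = a * b⁻¹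
  loc : ∀ x y, NU W x → NU W y → NU W (x + y)
  nt : ∃ y ∈ A, y ≠ 0 ∧ NU W y
  tr : ∃ a ∈ A, ∀ P : k[X], P ≠ 0 → ¬ NU W (aeval a P)

/-- `A` is the coordinate ring of a smooth affine chart of a surface with function field `E`. -/
structure Sf (A : Subalgebra k E) : Prop where
  sm : Algebra.Smooth k A
  fr : ∀ x : E, ∃ a ∈ A, ∃ b ∈ A, b ≠ 0 ∧ x = a * b⁻¹

/-- A regular system of parameters of the two-dimensional regular local ring `O`. -/
structure Par (O : Subalgebra k E) (u v : E) : Prop where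
  pu : NU O u
  pv : NU O v
  u0 : u ≠ 0
  v0 : v ≠ 0
  gen : ∀ x, NU O x → ∃ α ∈ O, ∃ β ∈ O, x = α * u + β * v
  reg : ∀ b ∈ O, ∀ c ∈ O, u * b = v * c → ∃ d ∈ O, c = u * d

/-- At all points there are tangent vectors dual to `u, v`. -/
def Coord (A : Subalgebra k E) (u v : E) : Prop :=
  ∀ (hu : u ∈ A) (hv : v ∈ A) (κ : Type u) [Field κ] [Algebra k κ] (φ : A →ₐ[k] κ),
    ∃ D1 D2 : TV φ, D1.D ⟨u, hu⟩ = 1 ∧ D1.D ⟨v, hv⟩ = 0 ∧ D2.D ⟨u, hu⟩ = 0 ∧ D2.D ⟨v, hv⟩ = 1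

/-- The algebra `O[𝔪/e]`. -/
def BB (O : Subalgebra k E) (e : E) : Subalgebra k E :=
  Algebra.adjoin k ((O : Set E) ∪ {x | ∃ y, NU O y ∧ x = y * e⁻¹})

/-- `O'` is the local ring of a point of the blowup of the closed point of `O`, on the exceptional
divisor, and `e` is a local equation of the exceptional divisor. -/
structure Quad (O : Subalgebra k E) (e : E) (O' : Subalgebra k E) : Prop where
  e0 : e ≠ 0
  eO : NU O e
  le : O ≤ O'
  nu : ∀ x, NU O x → NU O' x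
  div : ∀ x, NU O x → x * e⁻¹ ∈ O'
  loc : ∀ x y, NU O' x → NU O' y → NU O' (x + y)
  frac : ∀ x ∈ O', ∃ a ∈ BB O e, ∃ b ∈ BB O e, b ≠ 0 ∧ b⁻¹ ∈ O' ∧ x = a * b⁻¹

/-- The curve `W` is regular at the point `O`: it has a local equation `z` which is part of a
system of parameters. -/
def Good1 (O W : Subalgebra k E) : Prop := ∃ z w, NU W z ∧ ¬ NU W w ∧ Par O z w

/-- The relation of infinitely near singular points of the curve `W`. -/
def r1 (W : Subalgebra k E) (O' O : Subalgebra k E) : Prop :=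
  ∃ e, Quad O e O' ∧ O' ≤ W ∧ ¬ NU W e ∧ ∀ z ∈ O, NU W z → z * (e ^ 2)⁻¹ ∈ O'

variable {A B O W : Subalgebra k E}

lemma mem_nonunits_NU {a : W} : a ∈ nonunits W ↔ NU W (a : E) := by
  rw [mem_nonunits_iff]
  constructor
  · intro h
    refine ⟨a.2, fun y hy h1 => h ?_⟩
    exact IsUnit.of_mul_eq_one ⟨y, hy⟩ (Subtype.ext h1)
  · intro h h1
    obtain ⟨b, hb⟩ := h1.exists_right_inv
    exact h.2 b b.2 (congrArg Subtype.val hb)

lemma isLocalRing_of_loc (h : ∀ x y, NU W x → NU W y → NU W (x + y)) : IsLocalRing W := by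
  refine IsLocalRing.of_nonunits_add ?_
  intro a b ha hb
  rw [mem_nonunits_NU] at ha hb ⊢
  exact h _ _ ha hb

lemma residue_eq_zero_NU [IsLocalRing W] {a : W} :
    IsLocalRing.residue W a = 0 ↔ NU W (a : E) := by
  rw [IsLocalRing.residue_eq_zero_iff, IsLocalRing.mem_maximalIdeal, mem_nonunits_NU]

lemma isAlgebraic_residue_iff [IsLocalRing W] {a : W} :
    IsAlgebraic k (IsLocalRing.residue W a) ↔ ∃ P : k[X], P ≠ 0 ∧ NU W (aeval (a : E) P) := by
  have h1 : ∀ P : k[X], aeval (IsLocalRing.residue W a) P =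
      IsLocalRing.residue W (aeval a P) := fun P =>
    Polynomial.aeval_algHom_apply (IsScalarTower.toAlgHom k W (IsLocalRing.ResidueField W)) a P
  have h2 : ∀ P : k[X], ((aeval a P : W) : E) = aeval (a : E) P := fun P =>
    (Polynomial.aeval_algHom_apply W.val a P).symm
  constructor
  · rintro ⟨P, hP, h3⟩
    refine ⟨P, hP, ?_⟩
    rw [h1, residue_eq_zero_NU, h2] at h3
    exact h3
  · rintro ⟨P, hP, h3⟩
    refine ⟨P, hP, ?_⟩
    rw [h1, residue_eq_zero_NU, h2]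
    exact h3

lemma IsDv.of_frac (h : IsDv A W) (hB : B ≤ W)
    (hf : ∀ x ∈ W, ∃ a ∈ B, ∃ b ∈ B, b ≠ 0 ∧ b⁻¹ ∈ W ∧ x = a * b⁻¹) : IsDv B W where
  le := hB
  frac := hf
  loc := h.loc
  nt := by
    obtain ⟨y, hy, hy0, h1⟩ := h.nt
    obtain ⟨a, ha, b, hb, hb0, hbi, rfl⟩ := hf y (h.le hy)
    refine ⟨a, ha, fun h0 => hy0 (by rw [h0, zero_mul]), ?_⟩
    have h2 := h1.mul_right (hB hb)
    rwa [inv_mul_cancel_right₀ hb0] at h2
  tr := by
    by_contra hcon
    push Not at hcon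
    have hl := isLocalRing_of_loc h.loc
    obtain ⟨y, hy, h1⟩ := h.tr
    obtain ⟨a, ha, b, hb, hb0, hbi, hyab⟩ := hf y (h.le hy)
    have h2 : IsAlgebraic k (IsLocalRing.residue W ⟨a, hB ha⟩) :=
      isAlgebraic_residue_iff.2 (hcon a ha)
    have h3 : IsAlgebraic k (IsLocalRing.residue W ⟨b, hB hb⟩) :=
      isAlgebraic_residue_iff.2 (hcon b hb)
    have h4 : IsLocalRing.residue W ⟨y, h.le hy⟩ =
        IsLocalRing.residue W ⟨a, hB ha⟩ * (IsLocalRing.residue W ⟨b, hB hb⟩)⁻¹ := by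
      have h5 : IsLocalRing.residue W ⟨b, hB hb⟩ ≠ 0 := by
        rw [ne_eq, residue_eq_zero_NU]
        exact not_NU_of_inv hb0 hbi
      rw [eq_mul_inv_iff_mul_eq₀ h5, ← map_mul]
      congr 1
      apply Subtype.ext
      change y * b = a
      rw [hyab, inv_mul_cancel_right₀ hb0]
    have h6 : IsAlgebraic k (IsLocalRing.residue W ⟨y, h.le hy⟩) := by
      rw [h4]
      exact h2.mul h3.inv
    obtain ⟨P, hP, h7⟩ := isAlgebraic_residue_iff.1 h6
    exact h1 P hP h7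

lemma IsDv.down (h : IsDv B W) (h1 : A ≤ B) {d : E} (hd : d ∈ A) (hd0 : d ≠ 0) (hdi : d⁻¹ ∈ W)
    (h2 : ∀ b ∈ B, ∃ n : ℕ, b * d ^ n ∈ A) : IsDv A W := by
  refine h.of_frac (h1.trans h.le) ?_
  intro x hx
  obtain ⟨a, ha, b, hb, hb0, hbi, rfl⟩ := h.frac x hx
  obtain ⟨n, hn⟩ := h2 a ha
  obtain ⟨m, hm⟩ := h2 b hb
  refine ⟨a * d ^ n * d ^ m, A.mul_mem hn (A.pow_mem hd m), b * d ^ m * d ^ n,
    A.mul_mem hm (A.pow_mem hd n), ?_, ?_, ?_⟩
  · exact mul_ne_zero (mul_ne_zero hb0 (pow_ne_zero _ hd0)) (pow_ne_zero _ hd0)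
  · rw [mul_inv, mul_inv, ← inv_pow, ← inv_pow]
    exact W.mul_mem (W.mul_mem hbi (W.pow_mem hdi m)) (W.pow_mem hdi n)
  · have := pow_ne_zero n hd0
    have := pow_ne_zero m hd0
    field_simp

lemma IsDv.glue (h : IsDv A W) (h1 : B ≤ W) {ρ : E} (h0 : ρ ≠ 0) (hρ : ρ ∈ A) (hρ' : ρ⁻¹ ∈ B)
    (h2 : ∀ a ∈ A, ∃ n : ℕ, (ρ⁻¹) ^ n * a ∈ B) : IsDv B W := by
  refine h.of_frac h1 ?_
  intro x hx
  obtain ⟨a, ha, b, hb, hb0, hbi, rfl⟩ := h.frac x hx
  obtain ⟨n, hn⟩ := h2 a ha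
  obtain ⟨m, hm⟩ := h2 b hb
  have hρ1 : ρ ∈ W := h.le hρ
  refine ⟨ρ⁻¹ ^ m * (ρ⁻¹ ^ n * a), B.mul_mem (B.pow_mem hρ' m) hn,
    ρ⁻¹ ^ n * (ρ⁻¹ ^ m * b), B.mul_mem (B.pow_mem hρ' n) hm, ?_, ?_, ?_⟩
  · have := inv_ne_zero h0
    exact mul_ne_zero (pow_ne_zero _ this) (mul_ne_zero (pow_ne_zero _ this) hb0)
  · rw [mul_inv, mul_inv, ← inv_pow, ← inv_pow, inv_inv]
    exact W.mul_mem (W.pow_mem hρ1 n) (W.mul_mem (W.pow_mem hρ1 m) hbi)
  · have := pow_ne_zero n h0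
    have := pow_ne_zero m h0
    field_simp

lemma IsDv.up (h : IsDv A W) (h1 : A ≤ B) (h2 : B ≤ W) : IsDv B W where
  le := h2
  frac := fun x hx => by
    obtain ⟨a, ha, b, hb, h3⟩ := h.frac x hx
    exact ⟨a, h1 ha, b, h1 hb, h3⟩
  loc := h.loc
  nt := by
    obtain ⟨y, hy, h3⟩ := h.nt
    exact ⟨y, h1 hy, h3⟩
  tr := by
    obtain ⟨y, hy, h3⟩ := h.tr
    exact ⟨y, h1 hy, h3⟩

/-- The centre of a prime divisor is not contained in a closed point. -/
lemma exists_NU_not_NU (hA : A ≤ O) (halg : ∀ x ∈ O, ∃ P : k[X], P ≠ 0 ∧ NU O (aeval x P))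
    (hW : IsDv A W) : ∃ w, NU O w ∧ ¬ NU W w := by
  obtain ⟨a, ha, h1⟩ := hW.tr
  obtain ⟨P, hP, h2⟩ := halg a (hA ha)
  exact ⟨_, h2, h1 P hP⟩

end alg

section model

variable {k E : Type u} [Field k] [Field E] [Algebra k E] {T T' I I' : Type}

/-- The components of the boundary are irreducible: `W i` is the local ring of the component. -/
def Irr (M : LM (⊥ : Subalgebra k E) ⊤ T I) (W : I → Subalgebra k E) : Prop :=
  ∀ t i, (M.x t i)⁻¹ ∈ M.A t ∨ (IsDv (M.A t) (W i) ∧ NU (W i) (M.x t i) ∧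
    ∀ a ∈ M.A t, NU (W i) a → ∃ b ∈ M.A t, a = M.x t i * b)

/-- `M'` is obtained from `M` by localizing the charts. -/
structure Refn (M : LM (⊥ : Subalgebra k E) ⊤ T I) (M' : LM (⊥ : Subalgebra k E) ⊤ T' I)
    (π : T' → T) : Prop where
  le : ∀ t', M.A (π t') ≤ M'.A t'
  x : ∀ t' i, M'.x t' i = M.x (π t') i
  pt : ∀ t' O, IsPt (M'.A t') O → IsPt (M.A (π t')) O
  dv : ∀ t' W, IsDv (M'.A t') W → IsDv (M.A (π t')) W
  irr : ∀ W, Irr M W → Irr M' W

/-- The point `O` is contained in exactly one chart, which has good coordinates. -/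
structure Iso (M : LM (⊥ : Subalgebra k E) ⊤ T I) (O : Subalgebra k E) (t0 : T) (u v : E) :
    Prop where
  pt : IsPt (M.A t0) O
  uniq : ∀ t, M.A t ≤ O → t = t0
  uA : u ∈ M.A t0
  vA : v ∈ M.A t0
  par : Par O u v
  coord : Coord (M.A t0) u v
  gen : ∀ x ∈ M.A t0, NU O x → ∃ α ∈ M.A t0, ∃ β ∈ M.A t0, x = α * u + β * v
  bd : ∀ i, NU O (M.x t0 i) ∨ (M.x t0 i)⁻¹ ∈ M.A t0

/-- `M'` is the blowup of the point `O` (with refined charts); the new component of the boundary,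
with index `none`, is the exceptional divisor, and the others are the strict transforms. -/
structure Blow (M : LM (⊥ : Subalgebra k E) ⊤ T I) (O : Subalgebra k E)
    (M' : LM (⊥ : Subalgebra k E) ⊤ T' (Option I)) (π : T' → T) : Prop where
  le : ∀ t', M.A (π t') ≤ M'.A t'
  thr : ∀ i, (∃ t, IsPt (M.A t) O ∧ NU O (M.x t i)) →
    ∀ t', M'.x t' (some i) * M'.x t' none = M.x (π t') i
  nthr : ∀ i, (∃ t, IsPt (M.A t) O ∧ ¬ NU O (M.x t i)) →
    ∀ t', M'.x t' (some i) = M.x (π t') i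
  pt : ∀ t' O', IsPt (M'.A t') O' →
    (¬ NU O' (M'.x t' none) ∧ IsPt (M.A (π t')) O' ∧ O' ≠ O) ∨
    (IsPt (M.A (π t')) O ∧ Quad O (M'.x t' none) O')
  dv : ∀ t' W, IsDv (M'.A t') W → IsDv (M.A (π t')) W ∨ NU W (M'.x t' none)
  ex : ∀ t' W, IsDv (M.A (π t')) W → M'.A t' ≤ W → ¬ NU W (M'.x t' none)
  irr : ∀ W, Irr M W → ∃ W', Irr M' W'

/-- Smooth projective surfaces with function field `E` and a boundary with simple normal crossings
and irreducible components. -/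
structure SM (k E : Type u) [Field k] [Field E] [Algebra k E] where
  T : Type
  I : Type
  finT : Finite T
  finI : Fintype I
  M : LM (⊥ : Subalgebra k E) ⊤ T I
  W : I → Subalgebra k E
  sf : ∀ t, Sf (M.A t)
  irr : Irr M W

attribute [instance] SM.finT SM.finI

/-- `W` is a prime divisor of the surface. -/
def SM.Dv (s : SM k E) (W : Subalgebra k E) : Prop := ∃ t, IsDv (s.M.A t) W

/-- `W` is a prime divisor of the surface contained in the boundary. -/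
def SM.Bdy (s : SM k E) (W : Subalgebra k E) : Prop :=
  ∃ t i, IsDv (s.M.A t) W ∧ NU W (s.M.x t i)

/-- The centre of `W` is a curve on all charts containing it. -/
def SM.Wd (s : SM k E) (W : Subalgebra k E) : Prop := ∀ t, s.M.A t ≤ W → IsDv (s.M.A t) W

/-- `s'` is above `s`, and isomorphic to it outside of the boundary of `s'`. -/
structure SM.Le (s s' : SM k E) : Prop where
  le : ∀ t', ∃ t, s.M.A t ≤ s'.M.A t'
  dv : ∀ W, s'.Dv W → s.Dv W ∨ s'.Bdy W
  bd : ∀ W, s'.Dv W → s.Bdy W → s'.Bdy W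

lemma SM.Le.refl (s : SM k E) : s.Le s :=
  ⟨fun t => ⟨t, le_rfl⟩, fun _ h => Or.inl h, fun _ _ h => h⟩

lemma SM.Le.trans {s s' s'' : SM k E} (h : s.Le s') (h' : s'.Le s'') : s.Le s'' where
  le := fun t => by
    obtain ⟨t1, h1⟩ := h'.le t
    obtain ⟨t2, h2⟩ := h.le t1
    exact ⟨t2, h2.trans h1⟩
  dv := fun W hW => by
    rcases h'.dv W hW with h1 | h1
    · rcases h.dv W h1 with h2 | h2
      · exact Or.inl h2
      · exact Or.inr (h'.bd W hW h2)
    · exact Or.inr h1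
  bd := fun W hW hb => by
    rcases h'.dv W hW with h1 | h1
    · exact h'.bd W hW (h.bd W h1 hb)
    · exact h1

lemma SM.Wd.mono {s s' : SM k E} (h : s.Le s') {W : Subalgebra k E} (hW : s.Wd W) : s'.Wd W := by
  intro t ht
  obtain ⟨t0, h0⟩ := h.le t
  exact (hW t0 (h0.trans ht)).up h0 ht

variable {R0 R : Subalgebra k E}

/-- Ratios of homogeneous coordinates of charts with a common point. -/
lemma LM.ratio (M : LM R0 R T I) {t t' : T} {O : Subalgebra k E} (h : M.A t ≤ O)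
    (h' : M.A t' ≤ O) (i : I) : M.x t' i / M.x t i ∈ O := by
  obtain ⟨n, hn⟩ := M.gi t t' i
  have h1 : M.H t / M.H t' ∈ O := h' (M.rt t' t)
  have h2 : M.x t' i / M.x t i = (M.H t / M.H t') ^ n *
      ((M.H t' / M.H t) ^ n * (M.x t' i / M.x t i)) := by
    have h3 := M.H0 t
    have h4 := M.H0 t'
    rw [← mul_assoc, ← mul_pow, div_mul_div_cancel₀ h4, div_self h3, one_pow, one_mul]
  rw [h2]
  exact O.mul_mem (O.pow_mem h1 n) (h hn)

/-- The boundary at a point does not depend on the chart. -/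
lemma LM.nu_iff (M : LM R0 R T I) {t t' : T} {O : Subalgebra k E} (h : M.A t ≤ O)
    (h' : M.A t' ≤ O) (i : I) : NU O (M.x t i) ↔ NU O (M.x t' i) := by
  have key : ∀ t t' : T, M.A t ≤ O → M.A t' ≤ O → NU O (M.x t i) → NU O (M.x t' i) := by
    intro t t' h h' h1
    have h2 := h1.mul_right (M.ratio h h' i)
    have h3 := M.x0 t i
    rwa [mul_div_cancel₀ _ h3] at h2
  exact ⟨key t t' h h', key t' t h' h⟩

/-- Points on different charts. -/
lemma LM.isPt (M : LM R0 R T I) {t t' : T} {O : Subalgebra k E} (h : IsPt (M.A t) O)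
    (h' : M.A t' ≤ O) : IsPt (M.A t') O := by
  have h3 := M.H0 t
  have h4 := M.H0 t'
  refine h.glue (ρ := M.H t' / M.H t) h' (div_ne_zero h4 h3) (M.rt t t') ?_ ?_
  · rw [inv_div]; exact M.rt t' t
  · intro a ha
    obtain ⟨n, hn⟩ := M.gl t' t a ha
    exact ⟨n, by rw [inv_div]; exact hn⟩

/-- Prime divisors on different charts. -/
lemma LM.isDv (M : LM R0 R T I) {t t' : T} {W : Subalgebra k E} (h : IsDv (M.A t) W)
    (h' : M.A t' ≤ W) : IsDv (M.A t') W := by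
  have h3 := M.H0 t
  have h4 := M.H0 t'
  refine h.glue (ρ := M.H t' / M.H t) h' (div_ne_zero h4 h3) (M.rt t t') ?_ ?_
  · rw [inv_div]; exact M.rt t' t
  · intro a ha
    obtain ⟨n, hn⟩ := M.gl t' t a ha
    exact ⟨n, by rw [inv_div]; exact hn⟩

lemma SM.Dv.wd {s : SM k E} {W : Subalgebra k E} (h : s.Dv W) : s.Wd W := by
  obtain ⟨t, ht⟩ := h
  exact fun t' h' => s.M.isDv ht h'

end model

end Pool.Agent.W558
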